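import Pool.Agent.Lib.MP_4ec5c8_lc.Collapse

/-!
The Fréchet amenability hierarchy collapses: for all countable ordinals `α, β ≥ 1`, a countable
Borel equivalence relation is `α`-amenable iff it is `β`-amenable.
-/

namespace Pool.Agent.Results.MP_4ec5c8_lc.HierarchyCollapses

open Pool.Agent.Lib.MP_4ec5c8_lc

theorem result (e : ℕ × ℕ ≃ ℕ) (α β : Ordinal.{0}) (hα : 1 ≤ α) (hα' : α < Ordinal.omega 1)
    (hβ : 1 ≤ β) (hβ' : β < Ordinal.omega 1)
    (X : Type*) [MeasurableSpace X] [StandardBorelSpace X] (E : X → X → Prop) (hE : IsCBER E) :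
    IsAlphaAmenable e α E ↔ IsAlphaAmenable e β E := by
  obtain ⟨F, hF⟩ := exists_isFr e α hα hα'
  obtain ⟨G, hG⟩ := exists_isFr e β hβ hβ'
  constructor
  · rintro ⟨F', hF', h⟩
    exact ⟨G, hG, isFr_amenable hG (amenable_of_isFr hE hF' h)⟩
  · rintro ⟨G', hG', h⟩
    exact ⟨F, hF, isFr_amenable hF (amenable_of_isFr hE hG' h)⟩

end Pool.Agent.Results.MP_4ec5c8_lc.HierarchyCollapses
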